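import Pool.Agent.helper67FB.Law

set_option autoImplicit false

open scoped Classical

namespace Pool.Agent.helper67FB

open Pool.Agent.FBR

variable {K : Type} [Field K] {n : ℕ}

theorem solv_wr (B : Type) [CommGroup B] : Group.IsSolvable (Wr B) := by
  let s : Wr B →* Multiplicative (ZMod 2) :=
    { toFun := fun x => Multiplicative.ofAdd x.s
      map_one' := rfl
      map_mul' := fun x y => rfl }
  have hk : ∀ x : s.ker, (x : Wr B).s = 0 := fun x => x.2
  have : Group.IsSolvable s.ker := by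
    apply Group.isSolvable_of_comm
    intro a b
    exact Subtype.ext (wr_comm_of _ _ (hk a) (hk b))
  exact Group.isSolvable_of_ker_le_range s.ker.subtype s (by simp)

theorem solv_con : Group.IsSolvable (Con (gdat K)) := by
  have := solv_wr Kˣ
  let s : Con (gdat K) →* Wr Kˣ := Con.proj (gdat K)
  have hk : ∀ x : s.ker, (x : Con (gdat K)).q = 1 := fun x => x.2
  have : Group.IsSolvable s.ker := by
    apply Group.isSolvable_of_comm
    intro a b
    refine Subtype.ext (FBR.Con.ext ?_ ?_ ?_)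
    · show (a : Con (gdat K)).a + (gdat K).pe (a : Con (gdat K)).q (b : Con (gdat K)).a =
        (b : Con (gdat K)).a + (gdat K).pe (b : Con (gdat K)).q (a : Con (gdat K)).a
      rw [hk a, hk b, map_one]
      exact add_comm _ _
    · show (a : Con (gdat K)).c + (gdat K).pz (a : Con (gdat K)).q (b : Con (gdat K)).c +
          (gdat K).om (a : Con (gdat K)).a ((gdat K).pe (a : Con (gdat K)).q (b : Con (gdat K)).a) =
        (b : Con (gdat K)).c + (gdat K).pz (b : Con (gdat K)).q (a : Con (gdat K)).c +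
          (gdat K).om (b : Con (gdat K)).a ((gdat K).pe (b : Con (gdat K)).q (a : Con (gdat K)).a)
      rw [hk a, hk b, map_one, map_one]
      simp only [Module.End.one_apply]
      have : ∀ v w : ZMod 2 → K × K, (gdat K).om v w = (gdat K).om w v := by
        intro v w
        funext m
        show (v m).1 * (w m).2 + (v m).2 * (w m).1 = (w m).1 * (v m).2 + (w m).2 * (v m).1
        ring
      rw [this (a : Con (gdat K)).a (b : Con (gdat K)).a]
      abel
    · show (a : Con (gdat K)).q * (b : Con (gdat K)).q = (b : Con (gdat K)).q * (a : Con (gdat K)).q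
      rw [hk a, hk b]
  exact Group.isSolvable_of_ker_le_range s.ker.subtype s (by simp)

/-- each word has finitely many letters -/
theorem letters (k : FreeGroup ℕ) : ∃ N : ℕ, ∀ (H : Type) [Group H] (ψ ψ' : FreeGroup ℕ →* H),
    (∀ i < N, ψ (FreeGroup.of i) = ψ' (FreeGroup.of i)) → ψ k = ψ' k := by
  induction k using FreeGroup.induction_on with
  | C1 => exact ⟨0, fun H _ ψ ψ' _ => by simp⟩
  | of x => exact ⟨x + 1, fun H _ ψ ψ' h => h x (Nat.lt_succ_self x)⟩
  | inv_of x hx =>
    obtain ⟨N, hN⟩ := hx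
    exact ⟨N, fun H _ ψ ψ' h => by rw [map_inv, map_inv, hN H ψ ψ' h]⟩
  | mul x y hx hy =>
    obtain ⟨N, hN⟩ := hx
    obtain ⟨M, hM⟩ := hy
    refine ⟨max N M, fun H _ ψ ψ' h => ?_⟩
    rw [map_mul, map_mul, hN H ψ ψ' fun i hi => h i (lt_max_of_lt_left hi),
      hM H ψ ψ' fun i hi => h i (lt_max_of_lt_right hi)]

theorem letters_fin (T : Finset (FreeGroup ℕ)) : ∃ N : ℕ, ∀ (H : Type) [Group H]
    (ψ ψ' : FreeGroup ℕ →* H), (∀ i < N, ψ (FreeGroup.of i) = ψ' (FreeGroup.of i)) →
    ∀ k ∈ T, ψ k = ψ' k := by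
  choose f hf using letters
  refine ⟨T.sup f, fun H _ ψ ψ' h k hk => ?_⟩
  exact hf k H ψ ψ' fun i hi => h i (lt_of_lt_of_le hi (Finset.le_sup hk))

theorem exists_orth {N n : ℕ} (hN : N < n) (v : ℕ → Vn n) :
    ∃ z : Vn n, z ≠ 0 ∧ ∀ i < N, dot z (v i) = 0 := by
  let L : Vn n →ₗ[ZMod 2] (Fin N → ZMod 2) :=
    { toFun := fun z i => dot z (v i)
      map_add' := by
        intro x y
        funext i
        simp [dot, add_mul, Finset.sum_add_distrib]
      map_smul' := by
        intro r x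
        funext i
        simp [dot, mul_assoc, Finset.mul_sum] }
  have h1 : LinearMap.ker L ≠ ⊥ := by
    apply LinearMap.ker_ne_bot_of_finrank_lt
    simpa using hN
  obtain ⟨z, hz, hz0⟩ := (Submodule.ne_bot_iff _).mp h1
  refine ⟨z, hz0, fun i hi => ?_⟩
  have := congrFun (LinearMap.mem_ker.mp hz) ⟨i, hi⟩
  exact this

theorem tau_sat (S : Finset (MonoidAlgebra K (FreeGroup ℕ))) (hS : ∀ s ∈ S, IsId K s) :
    ∃ n : ℕ, ∀ s ∈ S, ∀ ψ : FreeGroup ℕ →* Con (mdat K n),
      Representation.asAlgebraHom (MonoidHom.comp (tau K n) ψ) s = 0 := by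
  obtain ⟨N, hN⟩ := letters_fin (S.biUnion fun s => s.coeff.support)
  refine ⟨N + 1, fun s hs ψ => ?_⟩
  let ψ' : FreeGroup ℕ →* Con (mdat K (N + 1)) :=
    FreeGroup.lift fun i => if i < N then ψ (FreeGroup.of i) else 1
  have hψ' : ∀ i, ψ' (FreeGroup.of i) = if i < N then ψ (FreeGroup.of i) else 1 := by
    intro i; simp [ψ']
  have hag : ∀ i < N, ψ (FreeGroup.of i) = ψ' (FreeGroup.of i) := by
    intro i hi
    rw [hψ', if_pos hi]
  obtain ⟨z, hz0, hz⟩ := exists_orth (Nat.lt_succ_self N) fun i => (ψ (FreeGroup.of i)).q.1.e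
  have hd : Defi ψ' := by
    refine ⟨z, hz0, fun k => ?_⟩
    induction k using FreeGroup.induction_on with
    | C1 => simp
    | of x =>
      rw [hψ']
      split_ifs with h
      · exact hz x h
      · simp
    | inv_of x hx => rw [map_inv]; exact hx
    | mul x y hx hy =>
      rw [map_mul, Con.mul_q, Prod.fst_mul, Hn.mul_e, dot_add, hx, hy, add_zero]
  have h0 := tau_id ψ' hd s (hS s hs)
  rw [← h0]
  refine LinearMap.ext fun f => ?_
  rw [alg_apply, alg_apply, Finsupp.sum, Finsupp.sum]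
  refine Finset.sum_congr rfl fun k hk => ?_
  rw [hN _ ψ ψ' hag k (Finset.mem_biUnion.mpr ⟨s, hs, hk⟩)]

theorem final (h2 : (2 : K) = 0) (ht : ∀ m : ℤ, m ≠ 0 → ∃ t : Kˣ, t ^ m ≠ 1) :
    ¬ ∃ S : Finset (MonoidAlgebra K (FreeGroup ℕ)),
      (∀ s ∈ S, ∀ φ : FreeGroup ℕ →* Con (gdat K),
          Representation.asAlgebraHom (MonoidHom.comp (Con.rep (gdat K)) φ) s = 0) ∧
      ∀ (H : Type) [Group H] (W : Type) [AddCommGroup W] [Module K W]
        (τ : Representation K H W),
        (∀ s ∈ S, ∀ ψ : FreeGroup ℕ →* H,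
            Representation.asAlgebraHom (MonoidHom.comp τ ψ) s = 0) →
        ∀ u : MonoidAlgebra K (FreeGroup ℕ),
          (∀ φ : FreeGroup ℕ →* Con (gdat K),
              Representation.asAlgebraHom (MonoidHom.comp (Con.rep (gdat K)) φ) u = 0) →
          ∀ ψ : FreeGroup ℕ →* H,
            Representation.asAlgebraHom (MonoidHom.comp τ ψ) u = 0 := by
  rintro ⟨S, hS, h⟩
  obtain ⟨n, hn⟩ := tau_sat S hS
  obtain ⟨t, ht2⟩ := ht 2 (by norm_num)
  exact law_fails h2 ht t ht2 n (h (Con (mdat K n)) (WW K n) (tau K n) hn (law K n) (law_isId h2 n)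
    (psi t n))

end Pool.Agent.helper67FB
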