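import Pool.Agent.helper67FB.Can

set_option autoImplicit false

open scoped Classical

namespace Pool.Agent.helper67FB

open Pool.Agent.FBR

variable {K : Type} [Field K] {n : ℕ}

/-- constants in `Wr` -/
def cst (K : Type) [Field K] : Kˣ →* Wr Kˣ where
  toFun u := ⟨fun _ => u, 0⟩
  map_one' := rfl
  map_mul' u v := by ext m <;> simp

theorem rg_of {X : Type} (Y : UZ K X)
    (hG : ∀ φ : FreeGroup X →* Con (gdat K), LZ (gdat K) φ Y = 0) : RG Y.1 := by
  intro Ψ a
  let φ : FreeGroup X →* Con (gdat K) :=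
    FreeGroup.lift fun x => ⟨a x, 0, Ψ (FreeGroup.of x)⟩
  have hq : ∀ g, (φ g).q = Ψ g := by
    intro g
    have : (Con.proj (gdat K)).comp φ = Ψ := by
      apply FreeGroup.ext_hom
      intro x
      simp [φ, Con.proj]
    exact DFunLike.congr_fun this g
  have ha : ∀ x, (φ (FreeGroup.of x)).a = a x := by intro x; simp [φ]
  have hc : ∀ x, (φ (FreeGroup.of x)).c = 0 := by intro x; simp [φ]
  have h0 := congrFun (hG φ) 0
  rw [LZ, LinearMap.coprod_apply, LZ1] at h0
  simp only [hc, map_zero] at h0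
  have h1 : (Finsupp.linearCombination K fun _ : FreeGroup X × X => (0 : ZMod 2 → K)) Y.2 = 0 := by
    rw [Finsupp.linearCombination_apply]
    simp
  rw [h1, add_zero] at h0
  have h2 : (LinearMap.proj (R := K) (φ := fun _ : ZMod 2 => K) 0) (LZ2 (gdat K) φ Y.1) = 0 := h0
  rw [LZ2, Finsupp.apply_linearCombination] at h2
  rw [← h2]
  congr 2
  funext p
  simp only [Function.comp_apply, hq, ha]
  show _ = (((Ψ p.1.1).b 0 : K) • a p.1.2 (0 + (Ψ p.1.1).s)).1 *
    (((Ψ p.2.1).b 0 : K) • a p.2.2 (0 + (Ψ p.2.1).s)).2 +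
    (((Ψ p.1.1).b 0 : K) • a p.1.2 (0 + (Ψ p.1.1).s)).2 *
    (((Ψ p.2.1).b 0 : K) • a p.2.2 (0 + (Ψ p.2.1).s)).1
  simp only [kr, Om, zero_add, Prod.smul_fst, Prod.smul_snd, smul_eq_mul, Units.val_mul]
  ring

theorem lin_of (z : Vn n) (Y : UZ K (Gn K n z))
    (hG : ∀ φ : FreeGroup (Gn K n z) →* Con (gdat K), LZ (gdat K) φ Y = 0) :
    LZ1 (mdat K n) (can z) Y.2 = 0 := by
  let φ : FreeGroup (Gn K n z) →* Con (gdat K) :=
    FreeGroup.lift fun x => ⟨0, fun _ => (canx z x).c, cst K (canx z x).q.2⟩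
  have hq : ∀ g, (φ g).q = cst K (qn z g).2 := by
    intro g
    have : (Con.proj (gdat K)).comp φ = (cst K).comp ((MonoidHom.snd (Hn n) Kˣ).comp (qn z)) := by
      apply FreeGroup.ext_hom
      intro x
      simp [φ, Con.proj, qn, can]
    exact DFunLike.congr_fun this g
  have ha : ∀ x, (φ (FreeGroup.of x)).a = 0 := by intro x; simp [φ]
  have hc : ∀ x, (φ (FreeGroup.of x)).c = fun _ => (canx z x).c := by intro x; simp [φ]
  have h0 := congrFun (hG φ) 0
  rw [LZ, LinearMap.coprod_apply, LZ2] at h0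
  simp only [ha, map_zero] at h0
  have h1 : (Finsupp.linearCombination K fun _ : (FreeGroup (Gn K n z) × Gn K n z) ×
      (FreeGroup (Gn K n z) × Gn K n z) => (0 : ZMod 2 → K)) Y.1 = 0 := by
    rw [Finsupp.linearCombination_apply]
    simp
  rw [h1, zero_add] at h0
  have h2 : (LinearMap.proj (R := K) (φ := fun _ : ZMod 2 => K) 0) (LZ1 (gdat K) φ Y.2) = 0 := h0
  rw [LZ1, Finsupp.apply_linearCombination] at h2
  rw [LZ1, ← h2]
  congr 2
  funext p
  simp only [Function.comp_apply, hq, hc]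
  have hcc : (can z (FreeGroup.of p.2)).c = (canx z p.2).c := by simp [can]
  rw [hcc]
  rfl

theorem KLem (h2 : (2 : K) = 0) (ht : ∀ m : ℤ, m ≠ 0 → ∃ t : Kˣ, t ^ m ≠ 1)
    (z : Vn n) (hz : z ≠ 0) (Y : UZ K (Gn K n z))
    (hG : ∀ φ : FreeGroup (Gn K n z) →* Con (gdat K), LZ (gdat K) φ Y = 0) :
    LZ (mdat K n) (can z) Y = 0 := by
  rw [LZ, LinearMap.coprod_apply, lin_of z Y hG, add_zero]
  exact quad h2 z hz Y.1 (RP_of_RG ht _ (rg_of Y hG))

theorem univ_c' {Q E Z X : Type} [Group Q] [AddCommGroup E] [Module K E]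
    [AddCommGroup Z] [Module K Z] (D : Dat K Q E Z) (f : FreeGroup X →* Con D) (k : FreeGroup X) :
    (f k).c = LZ D f (Ups K X k).c := by
  rw [univ_c D f k, LZ, LinearMap.coprod_apply]

theorem alg_apply {V G : Type} [Group G] [AddCommGroup V] [Module K V] (ρ : Representation K G V)
    (φ : FreeGroup ℕ →* G) (u : MonoidAlgebra K (FreeGroup ℕ)) (v : V) :
    Representation.asAlgebraHom (MonoidHom.comp ρ φ) u v = u.coeff.sum fun k r => r • ρ (φ k) v := by
  rw [Representation.asAlgebraHom_def, MonoidAlgebra.lift_apply, Finsupp.sum, Finsupp.sum,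
    LinearMap.sum_apply]
  rfl

/-- identities of the finite-dimensional representation -/
def IsId (K : Type) [Field K] (u : MonoidAlgebra K (FreeGroup ℕ)) : Prop :=
  ∀ φ : FreeGroup ℕ →* Con (gdat K),
    Representation.asAlgebraHom (MonoidHom.comp (Con.rep (gdat K)) φ) u = 0

theorem main1 (h2 : (2 : K) = 0) (ht : ∀ m : ℤ, m ≠ 0 → ∃ t : Kˣ, t ^ m ≠ 1)
    (z : Vn n) (hz : z ≠ 0) (u : MonoidAlgebra K (FreeGroup ℕ)) (hu : IsId K u)
    (j : FreeGroup ℕ →* FreeGroup (Gn K n z)) (y : FreeGroup (Gn K n z)) :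
    (u.coeff.sum fun k r => r * (can z (y * j k)).c) = 0 := by
  let Y : UZ K (Gn K n z) := u.coeff.sum fun k r => r • (Ups K (Gn K n z) (y * j k)).c
  have hL : ∀ {Q E Z : Type} [Group Q] [AddCommGroup E] [Module K E]
      [AddCommGroup Z] [Module K Z] (D : Dat K Q E Z) (f : FreeGroup (Gn K n z) →* Con D),
      LZ D f Y = u.coeff.sum fun k r => r • (f (y * j k)).c := by
    intro Q E Z _ _ _ _ _ D f
    simp only [Y, Finsupp.sum, map_sum, map_smul, univ_c' D f]
  have h1 := KLem h2 ht z hz Y ?_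
  · rw [hL] at h1
    simpa [smul_eq_mul] using h1
  · intro φ
    rw [hL]
    have h3 := hu (φ.comp j)
    have h4 : (Representation.asAlgebraHom (MonoidHom.comp (Con.rep (gdat K)) (φ.comp j)) u)
        ((1, 0, 0) : K × (ZMod 2 → K × K) × (ZMod 2 → K)) = 0 := by rw [h3]; rfl
    rw [alg_apply] at h4
    have h5 := congrArg (Con.rep (gdat K) (φ y)) h4
    rw [map_zero, Finsupp.sum, map_sum] at h5
    have h6 := congrArg (fun v : K × (ZMod 2 → K × K) × (ZMod 2 → K) => v.2.2) h5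
    simp only [Prod.snd_sum, Prod.snd_zero] at h6
    rw [Finsupp.sum, ← h6]
    refine Finset.sum_congr rfl fun k _ => ?_
    have h7 : Con.rep (gdat K) (φ y) (u.coeff k • Con.rep (gdat K) ((φ.comp j) k) (1, 0, 0)) =
        u.coeff k • Con.rep (gdat K) (φ (y * j k)) (1, 0, 0) := by
      rw [map_smul, map_mul, map_mul]
      rfl
    rw [h7]
    simp

end Pool.Agent.helper67FB
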