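import Pool.Agent.helper67FB.Mdl

set_option autoImplicit false

open scoped Classical

namespace Pool.Agent.helper67FB

open Pool.Agent.FBR

variable {K : Type} [Field K] {n : ℕ}

/-! ### the representation of the model group -/

def Defi (ψ : FreeGroup ℕ →* Con (mdat K n)) : Prop :=
  ∃ z : Vn n, z ≠ 0 ∧ ∀ k, dot z (ψ k).q.1.e = 0

def WW (K : Type) [Field K] (n : ℕ) : Submodule K (Con (mdat K n) → K) where
  carrier := {f | ∀ ψ : FreeGroup ℕ →* Con (mdat K n), Defi ψ →
    ∀ u : MonoidAlgebra K (FreeGroup ℕ), IsId K u →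
    ∀ x, (u.coeff.sum fun k r => r * f (x * ψ k)) = 0}
  add_mem' := by
    intro f g hf hg ψ hψ u hu x
    have h1 := hf ψ hψ u hu x
    have h2 := hg ψ hψ u hu x
    simp only [Finsupp.sum] at h1 h2 ⊢
    simp only [Pi.add_apply, mul_add, Finset.sum_add_distrib, h1, h2, add_zero]
  zero_mem' := by
    intro ψ hψ u hu x
    simp [Finsupp.sum]
  smul_mem' := by
    intro c f hf ψ hψ u hu x
    have h1 := hf ψ hψ u hu x
    simp only [Finsupp.sum] at h1 ⊢
    simp only [Pi.smul_apply, smul_eq_mul, mul_left_comm, ← Finset.mul_sum, h1, mul_zero]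

theorem Defi.conj {ψ : FreeGroup ℕ →* Con (mdat K n)} (hψ : Defi ψ) (g : Con (mdat K n)) :
    Defi ((MulAut.conj g⁻¹).toMonoidHom.comp ψ) := by
  obtain ⟨z, hz, h⟩ := hψ
  refine ⟨z, hz, fun k => ?_⟩
  have h1 : (((MulAut.conj g⁻¹).toMonoidHom.comp ψ) k) = g⁻¹ * ψ k * g⁻¹⁻¹ := rfl
  rw [h1, Con.mul_q, Con.mul_q, Prod.fst_mul, Prod.fst_mul, Hn.mul_e, Hn.mul_e, dot_add, dot_add, h]
  have h2 : (g⁻¹).q.1.e = g.q.1.e := rfl
  have h3 : (g⁻¹⁻¹).q.1.e = g.q.1.e := rfl
  rw [h2, h3, add_zero]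
  exact Wr.add_self_zmod2 _

theorem WW_trans {f : Con (mdat K n) → K} (hf : f ∈ WW K n) (g : Con (mdat K n)) :
    (fun x => f (x * g)) ∈ WW K n := by
  intro ψ hψ u hu x
  have := hf _ (hψ.conj g) u hu (x * g)
  rw [Finsupp.sum] at this ⊢
  rw [← this]
  refine Finset.sum_congr rfl fun k _ => ?_
  have h1 : (((MulAut.conj g⁻¹).toMonoidHom.comp ψ) k) = g⁻¹ * ψ k * g⁻¹⁻¹ := rfl
  rw [h1]
  congr 2
  group

/-- right translation on `WW` -/
noncomputable def tau (K : Type) [Field K] (n : ℕ) : Representation K (Con (mdat K n)) (WW K n) where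
  toFun g :=
    { toFun := fun f => ⟨fun x => f.1 (x * g), WW_trans f.2 g⟩
      map_add' := by intro f f'; rfl
      map_smul' := by intro r f; rfl }
  map_one' := by
    refine LinearMap.ext fun f => Subtype.ext (funext fun x => ?_)
    show f.1 (x * 1) = f.1 x
    rw [mul_one]
  map_mul' g g' := by
    refine LinearMap.ext fun f => Subtype.ext (funext fun x => ?_)
    show f.1 (x * (g * g')) = f.1 (x * g * g')
    rw [mul_assoc]

theorem tau_apply (g : Con (mdat K n)) (f : WW K n) (x : Con (mdat K n)) :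
    (tau K n g f).1 x = f.1 (x * g) := rfl

theorem cfun_mem (h2 : (2 : K) = 0) (ht : ∀ m : ℤ, m ≠ 0 → ∃ t : Kˣ, t ^ m ≠ 1) :
    (fun γ : Con (mdat K n) => γ.c) ∈ WW K n := by
  intro ψ hψ u hu x
  obtain ⟨z, hz, h⟩ := hψ
  exact main2 h2 ht z hz u hu ψ h x

theorem tau_id (ψ : FreeGroup ℕ →* Con (mdat K n)) (hψ : Defi ψ)
    (u : MonoidAlgebra K (FreeGroup ℕ)) (hu : IsId K u) :
    Representation.asAlgebraHom (MonoidHom.comp (tau K n) ψ) u = 0 := by
  refine LinearMap.ext fun f => Subtype.ext (funext fun x => ?_)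
  rw [alg_apply]
  have h1 : ((u.coeff.sum fun k r => r • (tau K n (ψ k)) f : WW K n) : Con (mdat K n) → K) x =
      u.coeff.sum fun k r => r * f.1 (x * ψ k) := by
    rw [Finsupp.sum, Finsupp.sum, Submodule.coe_sum, Finset.sum_apply]
    refine Finset.sum_congr rfl fun k _ => ?_
    rfl
  rw [h1]
  exact f.2 ψ hψ u hu x

/-! ### the law -/

def aw : FreeGroup ℕ :=
  (FreeGroup.of 0) ^ 2 * (FreeGroup.of 1) ^ 2 * ((FreeGroup.of 0) ^ 2)⁻¹ * ((FreeGroup.of 1) ^ 2)⁻¹

def cw : ℕ → FreeGroup ℕ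
  | 0 => 1
  | m + 1 => cw m * (FreeGroup.of (m + 2)) ^ 2

noncomputable def law (K : Type) [Field K] (n : ℕ) : MonoidAlgebra K (FreeGroup ℕ) :=
  (MonoidAlgebra.of K _ aw - 1) * (MonoidAlgebra.of K _ (cw n * aw * (cw n)⁻¹) - 1)

theorem alg_law {V G : Type} [Group G] [AddCommGroup V] [Module K V] (ρ : Representation K G V)
    (φ : FreeGroup ℕ →* G) (n : ℕ) (v : V) :
    Representation.asAlgebraHom (MonoidHom.comp ρ φ) (law K n) v =
      ρ (φ aw) (ρ (φ (cw n) * φ aw * (φ (cw n))⁻¹) v - v) -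
        (ρ (φ (cw n) * φ aw * (φ (cw n))⁻¹) v - v) := by
  have h1 : ∀ k, Representation.asAlgebraHom (MonoidHom.comp ρ φ) (MonoidAlgebra.of K _ k) =
      ρ (φ k) := by
    intro k
    rw [Representation.asAlgebraHom_of]
    rfl
  have h3 : φ (cw n * aw * (cw n)⁻¹) = φ (cw n) * φ aw * (φ (cw n))⁻¹ := by simp
  rw [law, map_mul, map_sub, map_sub, h1, h1, map_one, h3]
  rfl

theorem wr_comm_of {B : Type} [CommGroup B] (x y : Wr B) (hx : x.s = 0) (hy : y.s = 0) :
    x * y = y * x := by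
  refine Wr.ext (funext fun m => ?_) ?_
  · simp [hx, hy, mul_comm]
  · simp [hx, hy]

theorem wr_sq_s {B : Type} [CommGroup B] (x : Wr B) : (x ^ 2).s = 0 := by
  rw [pow_two]
  exact Wr.add_self_zmod2 _

theorem law_isId (h2 : (2 : K) = 0) (n : ℕ) : IsId K (law K n) := by
  intro φ
  refine LinearMap.ext fun v => ?_
  rw [alg_law, LinearMap.zero_apply]
  set A := φ aw with hA
  set C := φ (cw n) with hC
  have hAq : A.q = 1 := by
    have : A.q = (Con.proj (gdat K)) (φ aw) := rfl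
    rw [this, aw]
    simp only [map_mul, map_pow, map_inv]
    rw [wr_comm_of _ _ (wr_sq_s _) (wr_sq_s _)]
    group
  have hCq : C.q.s = 0 := by
    have : ∀ m, ((Con.proj (gdat K)) (φ (cw m))).s = 0 := by
      intro m
      induction m with
      | zero => simp [cw]
      | succ m ih =>
        rw [cw, map_mul, map_mul, Wr.mul_s, ih, map_pow, map_pow, wr_sq_s, add_zero]
    exact this n
  have hq' : (C * A * C⁻¹).q = 1 := by
    simp [hAq]
  have ha' : (C * A * C⁻¹).a = (gdat K).pe C.q A.a := by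
    simp only [Con.mul_a, Con.mul_q, hAq, mul_one, Con.inv_a, map_neg]
    rw [← Module.End.mul_apply, ← map_mul, mul_inv_cancel, map_one, Module.End.one_apply]
    abel
  have hom : (gdat K).om A.a ((gdat K).pe C.q A.a) = 0 := by
    funext m
    show (A.a m).1 * ((C.q.b m : K) • A.a (m + C.q.s)).2 +
      (A.a m).2 * ((C.q.b m : K) • A.a (m + C.q.s)).1 = 0
    rw [hCq, add_zero, Prod.smul_fst, Prod.smul_snd, smul_eq_mul, smul_eq_mul]
    linear_combination ((A.a m).1 * (C.q.b m : K) * (A.a m).2) * h2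
  obtain ⟨r, e, w⟩ := v
  set A' := C * A * C⁻¹ with hA'
  rw [Con.rep_apply, Con.rep_apply]
  simp only [hq', hAq, map_one, Module.End.one_apply, Prod.mk_sub_mk, ha']
  refine Prod.ext ?_ (Prod.ext ?_ ?_)
  · simp
  · simp
  · simp [hom]

/-- the homomorphism refuting the law -/
noncomputable def psi (t : Kˣ) (n : ℕ) : FreeGroup ℕ →* Con (mdat K n) :=
  FreeGroup.lift fun i => match i with
    | 0 => ⟨0, 0, (1, t)⟩
    | 1 => ⟨Pi.single 1 1, 0, (1, t)⟩
    | i + 2 => if h : i < n then ⟨0, 0, (⟨Pi.single ⟨i, h⟩ 1, 0⟩, 1)⟩ else 1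

theorem comm_a {Q E Z : Type} [Group Q] [AddCommGroup E] [Module K E]
    [AddCommGroup Z] [Module K Z] {D : Dat K Q E Z} (x y : Con D) (hx : x.a = 0)
    (hq : x.q * y.q * x.q⁻¹ * y.q⁻¹ = 1) :
    (x * y * x⁻¹ * y⁻¹).a = D.pe x.q y.a - y.a := by
  simp only [Con.mul_a, Con.mul_q, Con.inv_a, Con.inv_q, hx, map_zero, neg_zero, add_zero, zero_add,
    map_neg]
  rw [← Module.End.mul_apply, ← map_mul, hq, map_one, Module.End.one_apply]
  abel

theorem psi_cw (t : Kˣ) (n m : ℕ) (hm : m ≤ n) :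
    ((psi t n : FreeGroup ℕ →* Con (mdat K n)) (cw m)).a = 0 ∧
    ((psi t n : FreeGroup ℕ →* Con (mdat K n)) (cw m)).q =
      (⟨0, fun i j => if i = j ∧ i.val < m then 1 else 0⟩, 1) := by
  induction m with
  | zero =>
    refine ⟨by simp [cw], ?_⟩
    simp only [cw, map_one, Con.one_q, Nat.not_lt_zero, and_false, if_false]
    rfl
  | succ m ih =>
    obtain ⟨ih1, ih2⟩ := ih (by omega)
    have hX : (psi t n : FreeGroup ℕ →* Con (mdat K n)) (FreeGroup.of (m + 2)) =
        (⟨0, 0, (⟨Pi.single ⟨m, by omega⟩ 1, 0⟩, 1)⟩ : Con (mdat K n)) := by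
      have : m < n := by omega
      simp [psi, this]
    constructor
    · simp [cw, ih1, hX, pow_two]
    · simp only [cw, map_mul, map_pow, hX, pow_two, Con.mul_q, ih2]
      refine Prod.ext (Hn.ext ?_ ?_) ?_
      · simp [vadd_self]
      · funext i j
        simp only [Prod.fst_mul, Prod.mk_mul_mk, Hn.mul_w, Hn.mul_e, Pi.add_apply, Pi.zero_apply,
          zero_mul, add_zero, zero_add, Pi.single_apply, mul_ite, mul_one, mul_zero, Fin.ext_iff]
        by_cases h1 : i.val = j.val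
        · by_cases h3 : j.val = m
          · simp [h1, h3]
          · by_cases h4 : j.val < m
            · simp [h1, h3, h4, Nat.lt_succ_of_lt h4]
            · have : ¬ j.val < m + 1 := by omega
              simp [h1, h3, h4, this]
        · by_cases h3 : j.val = m
          · have h5 : ¬ i.val = m := by omega
            simp [h1, h3, h5]
          · simp [h1, h3]
      · simp

theorem law_fails (h2 : (2 : K) = 0) (ht : ∀ m : ℤ, m ≠ 0 → ∃ t : Kˣ, t ^ m ≠ 1)
    (t : Kˣ) (ht2 : t ^ (2 : ℤ) ≠ 1) (n : ℕ) :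
    Representation.asAlgebraHom (MonoidHom.comp (tau K n) (psi t n)) (law K n) ≠ 0 := by
  intro hcon
  let f : WW K n := ⟨fun γ => γ.c, cfun_mem h2 ht⟩
  have h0 : ((Representation.asAlgebraHom (MonoidHom.comp (tau K n) (psi t n)) (law K n) f :
      WW K n) : Con (mdat K n) → K) 1 = 0 := by rw [hcon]; rfl
  rw [alg_law] at h0
  set A := (psi t n) aw with hA
  set C := (psi t n) (cw n) with hC
  set A' := C * A * C⁻¹ with hA'
  have h1 : (1 * A * A').c - (1 * A).c - ((1 * A').c - (1 : Con (mdat K n)).c) = 0 := h0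
  simp only [one_mul, Con.one_c, sub_zero] at h1
  -- the two generators
  have hP : (psi t n) (FreeGroup.of 0) = (⟨0, 0, (1, t)⟩ : Con (mdat K n)) := by simp [psi]
  have hR : (psi t n) (FreeGroup.of 1) = (⟨Pi.single 1 1, 0, (1, t)⟩ : Con (mdat K n)) := by
    simp [psi]
  have hqq : ((psi t n) ((FreeGroup.of 0) ^ 2) : Con (mdat K n)).q *
      ((psi t n) ((FreeGroup.of 1) ^ 2) : Con (mdat K n)).q *
      (((psi t n) ((FreeGroup.of 0) ^ 2) : Con (mdat K n)).q)⁻¹ *
      (((psi t n) ((FreeGroup.of 1) ^ 2) : Con (mdat K n)).q)⁻¹ = 1 := by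
    rw [map_pow, map_pow, hP, hR, pow_two, pow_two, Con.mul_q, Con.mul_q]
    group
  have hAe : A = (psi t n) ((FreeGroup.of 0) ^ 2) * (psi t n) ((FreeGroup.of 1) ^ 2) *
      ((psi t n) ((FreeGroup.of 0) ^ 2))⁻¹ * ((psi t n) ((FreeGroup.of 1) ^ 2))⁻¹ := by
    rw [hA, aw]
    simp only [map_mul, map_inv]
  have hAq : A.q = 1 := by
    rw [hAe, Con.mul_q, Con.mul_q, Con.mul_q, Con.inv_q, Con.inv_q]
    exact hqq
  have hAa : A.a = Pi.single 1 (((t : K) ^ 2 - 1) * (1 + t)) := by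
    rw [hAe, comm_a _ _ ?_ hqq, map_pow, map_pow, hP, hR, pow_two, pow_two, Con.mul_q, Con.mul_a]
    · simp only
      rw [mpe_single, mul_one, mul_one, ← Pi.single_add, mpe_single]
      simp only [Prod.mk_mul_mk, mul_one, Units.val_mul]
      rw [← Pi.single_sub]
      congr 1
      ring
    · rw [map_pow, hP, pow_two]
      simp
  obtain ⟨hCa, hCq⟩ := psi_cw (K := K) t n n le_rfl
  rw [← hC] at hCa hCq
  have hA'a : A'.a = Pi.single C.q.1 (((t : K) ^ 2 - 1) * (1 + t)) := by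
    rw [hA', Con.mul_a, Con.mul_a, Con.inv_a, hCa, hAa, map_zero, neg_zero, map_zero, add_zero,
      zero_add, mpe_single, mul_one, hCq]
    simp
  have hphi : phi K 1 C.q.1 = 1 := by
    rw [phi_eq, hCq]
    simp only [Hn.one_e, if_true, Hn.one_w, zero_add]
    refine Dc_one _ _ fun z hz => ?_
    rw [← hz]
    funext j
    simp [ctr]
  have h3 : (mdat K n).om A.a A'.a = 0 := by
    rw [← h1, Con.mul_c, hAq, map_one, map_one]
    simp only [Module.End.one_apply]
    ring
  rw [hAa, hA'a, mom_single, hphi, mul_one] at h3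
  have h4 : (((t : K) ^ 2 - 1) * (1 + t)) ≠ 0 := by
    refine mul_ne_zero ?_ ?_
    · intro h5
      have h6 : t ^ (2 : ℤ) = 1 := by
        refine Units.ext ?_
        have : (t : K) ^ 2 = 1 := by linear_combination h5
        simpa using this
      exact ht2 h6
    · intro h5
      have h6 : t = 1 := by
        refine Units.ext ?_
        have : (t : K) = 1 := by linear_combination h5 - h2
        simpa using this
      exact ht2 (by rw [h6, one_zpow])
  exact h4 (by simpa using h3)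

end Pool.Agent.helper67FB
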