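import Pool.Agent.helper67FB.KL

set_option autoImplicit false

open scoped Classical

namespace Pool.Agent.helper67FB

open Pool.Agent.FBR

variable {K : Type} [Field K] {n : ℕ}

theorem mpe_apply (q : Hn n × Kˣ) (a : Hn n → K) (x : Hn n) :
    (mdat K n).pe q a x = (q.2 : K) * a (q.1⁻¹ * x) := rfl

theorem mpe_single (q : Hn n × Kˣ) (h : Hn n) (r : K) :
    (mdat K n).pe q (Pi.single h r) = Pi.single (q.1 * h) ((q.2 : K) * r) := by
  funext x
  rw [mpe_apply]
  by_cases hx : x = q.1 * h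
  · subst hx
    simp
  · have : q.1⁻¹ * x ≠ h := fun h' => hx (by rw [← h']; group)
    rw [Pi.single_eq_of_ne hx, Pi.single_eq_of_ne this, mul_zero]

theorem mpz_apply (q : Hn n × Kˣ) (r : K) : (mdat K n).pz q r = (q.2 : K) ^ 2 * r := rfl

theorem mom_single (x y : Hn n) (r s : K) : (mdat K n).om (Pi.single x r) (Pi.single y s) =
    r * s * phi K x y := by
  show ∑ x' : Hn n, ∑ y' : Hn n, (Pi.single x r : Hn n → K) x' *
    (Pi.single y s : Hn n → K) y' * phi K x' y' = _
  rw [Finset.sum_eq_single x, Finset.sum_eq_single y]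
  · simp
  · intro b _ hb; rw [Pi.single_eq_of_ne hb]; simp
  · intro hb; exact absurd (Finset.mem_univ _) hb
  · intro b _ hb
    refine Finset.sum_eq_zero fun c _ => ?_
    rw [Pi.single_eq_of_ne hb]; simp
  · intro hb; exact absurd (Finset.mem_univ _) hb

/-- the canonical map reaches everything orthogonal to `z` -/
theorem can_surj (z : Vn n) (γ : Con (mdat K n)) (hγ : dot z γ.q.1.e = 0) :
    γ ∈ (can z : FreeGroup (Gn K n z) →* Con (mdat K n)).range := by
  set R := (can z : FreeGroup (Gn K n z) →* Con (mdat K n)).range with hR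
  have hA : ∀ h : Hn n, (⟨Pi.single h 1, 0, 1⟩ : Con (mdat K n)) ∈ R := fun h =>
    ⟨FreeGroup.of (Gn.A h), by simp [can, canx]⟩
  have hB : ∀ q : Hn n × Kˣ, dot z q.1.e = 0 → (⟨0, 0, q⟩ : Con (mdat K n)) ∈ R := fun q hq =>
    ⟨FreeGroup.of (Gn.B q hq), by simp [can, canx]⟩
  have hC : ∀ c : K, (⟨0, c, 1⟩ : Con (mdat K n)) ∈ R := fun c =>
    ⟨FreeGroup.of (Gn.C c), by simp [can, canx]⟩
  have mk : ∀ X ∈ R, ∀ a : Hn n → K, X.a = a → X.q = 1 →
      ∃ c : K, (⟨a, c, 1⟩ : Con (mdat K n)) ∈ R := by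
    intro X hX a ha hq
    refine ⟨X.c, ?_⟩
    have : (⟨a, X.c, 1⟩ : Con (mdat K n)) = X := FBR.Con.ext ha.symm rfl hq.symm
    rw [this]
    exact hX
  have hs : ∀ (h : Hn n) (r : K), ∃ c : K, (⟨Pi.single h r, c, 1⟩ : Con (mdat K n)) ∈ R := by
    intro h r
    by_cases hr : r = 0
    · subst hr
      refine ⟨0, ?_⟩
      have : (⟨Pi.single h 0, 0, 1⟩ : Con (mdat K n)) = 1 := by
        refine FBR.Con.ext ?_ ?_ ?_
        · simp
        · simp
        · rfl
      rw [this]
      exact R.one_mem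
    · have h1 := R.mul_mem (R.mul_mem (hB (1, Units.mk0 r hr) (by simp)) (hA h))
        (R.inv_mem (hB (1, Units.mk0 r hr) (by simp)))
      refine mk _ h1 _ ?_ ?_
      · simp only [Con.mul_a, Con.inv_a, map_zero, neg_zero, add_zero, zero_add]
        rw [mpe_single]
        simp
      · simp only [Con.mul_q, Con.inv_q, mul_one, mul_inv_cancel]
  have hsum : ∀ (s : Finset (Hn n)) (a : Hn n → K), ∃ c : K,
      (⟨∑ h ∈ s, Pi.single h (a h), c, 1⟩ : Con (mdat K n)) ∈ R := by
    intro s a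
    induction s using Finset.induction_on with
    | empty => exact ⟨0, by simpa using hC 0⟩
    | insert h s hh ih =>
      obtain ⟨c, hc⟩ := ih
      obtain ⟨c', hc'⟩ := hs h (a h)
      have h1 := R.mul_mem hc' hc
      refine mk _ h1 _ ?_ ?_
      · rw [Finset.sum_insert hh]
        simp
      · simp
  obtain ⟨c, hc⟩ := hsum Finset.univ γ.a
  rw [Finset.univ_sum_single] at hc
  have h1 := R.mul_mem (R.mul_mem hc (hC (γ.c - c))) (hB γ.q hγ)
  convert h1 using 1
  refine FBR.Con.ext ?_ ?_ ?_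
  · simp
  · simp
  · simp

theorem lift_can (z : Vn n) (ψ : FreeGroup ℕ →* Con (mdat K n))
    (hψ : ∀ k, dot z (ψ k).q.1.e = 0) :
    ∃ j : FreeGroup ℕ →* FreeGroup (Gn K n z), ∀ k, can z (j k) = ψ k := by
  have h1 : ∀ i : ℕ, ∃ w : FreeGroup (Gn K n z), can z w = ψ (FreeGroup.of i) := fun i =>
    can_surj z _ (hψ _)
  choose w hw using h1
  refine ⟨FreeGroup.lift w, ?_⟩
  have : (can z).comp (FreeGroup.lift w) = ψ := by
    apply FreeGroup.ext_hom
    intro i
    simp [hw]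
  intro k
  exact DFunLike.congr_fun this k

theorem IsId.sum_zero {u : MonoidAlgebra K (FreeGroup ℕ)} (hu : IsId K u) :
    (u.coeff.sum fun _ r => r) = 0 := by
  have h3 := hu 1
  have h4 : (Representation.asAlgebraHom (MonoidHom.comp (Con.rep (gdat K)) 1) u)
        ((1, 0, 0) : K × (ZMod 2 → K × K) × (ZMod 2 → K)) = 0 := by rw [h3]; rfl
  rw [alg_apply] at h4
  have h6 := congrArg (fun v : K × (ZMod 2 → K × K) × (ZMod 2 → K) => v.1) h4
  simp only [Finsupp.sum, Prod.fst_sum, Prod.fst_zero] at h6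
  rw [Finsupp.sum, ← h6]
  refine Finset.sum_congr rfl fun k _ => ?_
  simp

theorem main2 (h2 : (2 : K) = 0) (ht : ∀ m : ℤ, m ≠ 0 → ∃ t : Kˣ, t ^ m ≠ 1)
    (z : Vn n) (hz : z ≠ 0) (u : MonoidAlgebra K (FreeGroup ℕ)) (hu : IsId K u)
    (ψ : FreeGroup ℕ →* Con (mdat K n)) (hψ : ∀ k, dot z (ψ k).q.1.e = 0)
    (x : Con (mdat K n)) :
    (u.coeff.sum fun k r => r * (x * ψ k).c) = 0 := by
  obtain ⟨j, hj⟩ := lift_can z ψ hψ
  have e0 := hu.sum_zero
  have e1 : (u.coeff.sum fun k r => r * (ψ k).c) = 0 := by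
    have := main1 h2 ht z hz u hu j 1
    simpa [hj] using this
  have e2 : ∀ h : Hn n, (u.coeff.sum fun k r => r * (mdat K n).om (Pi.single h 1) (ψ k).a) = 0 := by
    intro h
    have := main1 h2 ht z hz u hu j (FreeGroup.of (Gn.A h))
    have hA : can z (FreeGroup.of (Gn.A h : Gn K n z)) = ⟨Pi.single h 1, 0, 1⟩ := by
      simp [can, canx]
    simp only [map_mul, hj, hA, Con.mul_c, map_one, Module.End.one_apply, zero_add, mul_add] at this
    rw [Finsupp.sum, Finset.sum_add_distrib] at this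
    rw [Finsupp.sum] at e1 ⊢
    rw [e1, zero_add] at this
    exact this
  have e3 : ∀ b : Hn n → K, (u.coeff.sum fun k r => r * (mdat K n).om b (ψ k).a) = 0 := by
    intro b
    have hb : b = ∑ h : Hn n, b h • (Pi.single h 1 : Hn n → K) := by
      funext y
      simp [Finset.sum_apply, Pi.single_apply]
    have : ∀ k, (mdat K n).om b (ψ k).a = ∑ h : Hn n, b h * (mdat K n).om (Pi.single h 1) (ψ k).a := by
      intro k
      conv_lhs => rw [hb]
      rw [map_sum, LinearMap.sum_apply]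
      simp
    simp only [this, Finsupp.sum, Finset.mul_sum]
    rw [Finset.sum_comm]
    refine Finset.sum_eq_zero fun h _ => ?_
    have e4 := e2 h
    rw [Finsupp.sum] at e4
    calc ∑ k ∈ u.coeff.support, u.coeff k * (b h * (mdat K n).om (Pi.single h 1) (ψ k).a)
        = b h * ∑ k ∈ u.coeff.support, u.coeff k * (mdat K n).om (Pi.single h 1) (ψ k).a := by
          rw [Finset.mul_sum]
          refine Finset.sum_congr rfl fun k _ => ?_
          ring
      _ = 0 := by rw [e4, mul_zero]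
  have e5 : ∀ k, (x * ψ k).c = x.c + (x.q.2 : K) ^ 2 * (ψ k).c +
      (x.q.2 : K) ^ 2 * (mdat K n).om ((mdat K n).pe x.q⁻¹ x.a) (ψ k).a := by
    intro k
    rw [Con.mul_c, mpz_apply, ← mpz_apply x.q ((mdat K n).om _ _), ← (mdat K n).eqv]
    have : (mdat K n).pe x.q ((mdat K n).pe x.q⁻¹ x.a) = x.a := by
      rw [← Module.End.mul_apply, ← map_mul, mul_inv_cancel, map_one, Module.End.one_apply]
    rw [this]
  simp only [e5, mul_add, Finsupp.sum, Finset.sum_add_distrib]
  rw [Finsupp.sum] at e0 e1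
  have e3' := e3 ((mdat K n).pe x.q⁻¹ x.a)
  rw [Finsupp.sum] at e3'
  have f1 : ∑ k ∈ u.coeff.support, u.coeff k * x.c = 0 := by
    rw [← Finset.sum_mul, e0, zero_mul]
  have f2 : ∑ k ∈ u.coeff.support, u.coeff k * ((x.q.2 : K) ^ 2 * (ψ k).c) = 0 := by
    calc _ = (x.q.2 : K) ^ 2 * ∑ k ∈ u.coeff.support, u.coeff k * (ψ k).c := by
          rw [Finset.mul_sum]
          refine Finset.sum_congr rfl fun k _ => ?_
          ring
      _ = 0 := by rw [e1, mul_zero]
  have f3 : ∑ k ∈ u.coeff.support, u.coeff k * ((x.q.2 : K) ^ 2 *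
      (mdat K n).om ((mdat K n).pe x.q⁻¹ x.a) (ψ k).a) = 0 := by
    calc _ = (x.q.2 : K) ^ 2 * ∑ k ∈ u.coeff.support, u.coeff k *
          (mdat K n).om ((mdat K n).pe x.q⁻¹ x.a) (ψ k).a := by
          rw [Finset.mul_sum]
          refine Finset.sum_congr rfl fun k _ => ?_
          ring
      _ = 0 := by rw [e3', mul_zero]
  rw [f1, f2, f3]
  simp

end Pool.Agent.helper67FB
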