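import Pool.Graph.R_seed8.FBR.Univ

set_option autoImplicit false

open scoped Classical

namespace Pool.Agent.helper67FB

open Pool.Agent.FBR

variable {K : Type} [Field K] {X : Type}

def Om (x y : K × K) : K := x.1 * y.2 + x.2 * y.1

/-- the kernel attached to a homomorphism to `Wr B` -/
noncomputable def kr {B : Type} [CommGroup B] (Ψ : FreeGroup X →* Wr B)
    (a : X → ZMod 2 → K × K) (f : B → K) (p : (FreeGroup X × X) × (FreeGroup X × X)) : K :=
  Om (a p.1.2 (Ψ p.1.1).s) (a p.2.2 (Ψ p.2.1).s) * f ((Ψ p.1.1).b 0 * (Ψ p.2.1).b 0)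

def RG (Y : UZ2 K X) : Prop :=
  ∀ (Ψ : FreeGroup X →* Wr Kˣ) (a : X → ZMod 2 → K × K),
    Finsupp.linearCombination K (kr Ψ a fun x => (x : K)) Y = 0

def RP (Y : UZ2 K X) : Prop :=
  ∀ (B : Type) [CommGroup B] (Ψ : FreeGroup X →* Wr B) (a : X → ZMod 2 → K × K) (f : B → K),
    Finsupp.linearCombination K (kr Ψ a f) Y = 0

/-- functoriality of `Wr` -/
def Wr.map {B B' : Type} [CommGroup B] [CommGroup B'] (L : B →* B') : Wr B →* Wr B' where
  toFun x := ⟨fun m => L (x.b m), x.s⟩
  map_one' := by ext m <;> simp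
  map_mul' x y := by ext m <;> simp

abbrev Ch (K : Type) [Field K] (ι : Type) : Type := Multiplicative (ι →₀ ℤ) →* Kˣ

theorem ded {ι : Type} (ht : ∀ m : ℤ, m ≠ 0 → ∃ t : Kˣ, t ^ m ≠ 1)
    (A : Multiplicative (ι →₀ ℤ) →₀ K)
    (h : ∀ χ : Multiplicative (ι →₀ ℤ) →* Kˣ,
      Finsupp.linearCombination K (fun x => (χ x : K)) A = 0) : A = 0 := by
  let ev : Multiplicative (ι →₀ ℤ) → (Ch K ι →* K) := fun x =>
    { toFun := fun χ => (χ x : K)
      map_one' := by
        rw [MonoidHom.one_apply, Units.val_one]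
      map_mul' := by
        intro a b
        rw [MonoidHom.mul_apply, Units.val_mul] }
  have hinj : Function.Injective ev := by
    intro x y hxy
    have hc : ∀ χ : Ch K ι, χ x = χ y := by
      intro χ
      have := DFunLike.congr_fun hxy χ
      exact Units.ext this
    have : Multiplicative.toAdd x = Multiplicative.toAdd y := by
      ext i
      by_contra hne
      obtain ⟨t, ht'⟩ := ht (Multiplicative.toAdd x i - Multiplicative.toAdd y i)
        (sub_ne_zero.2 hne)
      let χ : Ch K ι := AddMonoidHom.toMultiplicativeLeft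
        ((zmultiplesHom (Additive Kˣ) (Additive.ofMul t)).comp
          (Finsupp.applyAddHom i))
      have h1 := hc χ
      have h2 : t ^ (Multiplicative.toAdd x i) = t ^ (Multiplicative.toAdd y i) := h1
      apply ht'
      rw [zpow_sub, h2, mul_inv_cancel]
    exact this
  have hli := (linearIndependent_monoidHom (Ch K ι) K).comp ev hinj
  refine (linearIndependent_iff.mp hli) A ?_
  funext χ
  have := h χ
  rw [Finsupp.linearCombination_apply] at this ⊢
  rw [Finsupp.sum] at this ⊢
  rw [Finset.sum_apply]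
  simpa [ev] using this

theorem RP_of_RG (ht : ∀ m : ℤ, m ≠ 0 → ∃ t : Kˣ, t ^ m ≠ 1) (Y : UZ2 K X) (hY : RG Y) :
    RP Y := by
  intro B _ Ψ a f
  let L : Multiplicative (X × ZMod 2 →₀ ℤ) →* B := AddMonoidHom.toMultiplicativeLeft
    (Finsupp.liftAddHom fun i : X × ZMod 2 =>
      (zmultiplesHom (Additive B)) (Additive.ofMul ((Ψ (FreeGroup.of i.1)).b i.2)))
  have hL : ∀ i : X × ZMod 2, L (Multiplicative.ofAdd (Finsupp.single i 1)) =
      (Ψ (FreeGroup.of i.1)).b i.2 := by
    intro i
    have : (Finsupp.liftAddHom fun i : X × ZMod 2 =>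
      (zmultiplesHom (Additive B)) (Additive.ofMul ((Ψ (FreeGroup.of i.1)).b i.2)))
        (Finsupp.single i 1) = Additive.ofMul ((Ψ (FreeGroup.of i.1)).b i.2) := by
      simp
    exact congrArg Additive.toMul this
  let U : FreeGroup X →* Wr (Multiplicative (X × ZMod 2 →₀ ℤ)) :=
    FreeGroup.lift fun x => ⟨fun m => Multiplicative.ofAdd (Finsupp.single (x, m) 1),
      (Ψ (FreeGroup.of x)).s⟩
  have hU : (Wr.map L).comp U = Ψ := by
    ext x
    · rename_i m
      simp [Wr.map, U, hL]
    · simp [Wr.map, U]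
  let F : ((FreeGroup X × X) × (FreeGroup X × X)) → (Multiplicative (X × ZMod 2 →₀ ℤ) →₀ K) :=
    fun p => Finsupp.single ((U p.1.1).b 0 * (U p.2.1).b 0)
      (Om (a p.1.2 (U p.1.1).s) (a p.2.2 (U p.2.1).s))
  have hF : ∀ g : Multiplicative (X × ZMod 2 →₀ ℤ) → K,
      Finsupp.linearCombination K g (Finsupp.linearCombination K F Y) =
        Finsupp.linearCombination K (kr U a g) Y := by
    intro g
    rw [Finsupp.apply_linearCombination]
    congr 2
    funext p
    simp [F, kr]
  have hA : Finsupp.linearCombination K F Y = 0 := by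
    refine ded ht _ fun χ => ?_
    rw [hF]
    have := hY ((Wr.map χ).comp U) a
    convert this using 3
    funext p
    simp [kr, Wr.map]
  have h0 := hF (fun x => f (L x))
  rw [hA, map_zero] at h0
  rw [h0]
  congr 2
  funext p
  simp only [kr, ← hU, MonoidHom.comp_apply, Wr.map, MonoidHom.coe_mk, OneHom.coe_mk, map_mul]

end Pool.Agent.helper67FB
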